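import Pool.Agent.H57.LH.ExRows
set_option autoImplicit false
set_option linter.unusedVariables false
namespace Pool.Agent.H86.LH
open Pool.Agent.H68.BP Pool.Agent.H58.SF Pool.Agent.H53.GC Pool.Agent.H53.NR
open Pool.Agent.H53.GR (Dm Ps)
open Pool.Agent.H57.AR (tp ty tpo pullO Ty OT HomEq El ElD FamR Od GmR INJ lft)
open Pool.Agent.H57.SO (Pal Col vt Bh Sbn fib sigF)
open Pool.Agent.H57.EQ (Cx T_CYF)
open Pool.Agent.H57.LCI (LocalCompletions Pre Realizes)
open Pool.Agent.H44.KR (HB Amg Tyi Rz Rlz Clp LInj Prm TpOn RmL LcN Pl lr blk Fv kv RkI Kd JJ Yc IsTh Can Plf Pls)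
open Pool.Agent.H57.LH Function

/-- the number of a blind element -/
def EXA_sec {V : Type} {T : Set V} {b : ℕ} : ExD T b → ℕ := Sum.elim (fun _ => 0) (fun p => p.2)

/-- the shift of the blind elements -/
def EXA_sh {V : Type} {T : Set V} {b : ℕ} (K : ℕ) : ExD T b → ExD T b :=
  Sum.map id (fun p => (p.1, p.2 + K))

theorem EXA_sh_inj {V : Type} {T : Set V} {b : ℕ} (K : ℕ) : Injective (EXA_sh (T := T) (b := b) K) := by
  intro u v h
  rcases u with u | u <;> rcases v with v | v
  · exact h
  · exact absurd h (by simp [EXA_sh])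
  · exact absurd h (by simp [EXA_sh])
  · have h1 : (u.1, u.2 + K) = (v.1, v.2 + K) := Sum.inr.inj h
    have h2 := congrArg Prod.fst h1
    have h3 := congrArg Prod.snd h1
    simp only at h2 h3
    exact congrArg Sum.inr (Prod.ext h2 (by omega))

theorem pf_EXA : T_EXA := by
  classical
  intro V ρ 𝔹 c cs T b har hAm hT W _ A x y F hTp
  have _ : Fintype W := Fintype.ofFinite W
  obtain ⟨h1, h2⟩ := tpOn_strOn.1 hTp
  -- marks
  have hmark : ∀ w ∈ A, ∀ β : Fin b, (∃ n : ℕ, x w = Sum.inr (β, n)) ↔ ∃ n : ℕ, y w = Sum.inr (β, n) :=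
    fun w hw β => h2 (Sum.inr β) (fun _ => w) (fun _ => hw)
  have hyl : ∀ w ∈ A, (∃ t, x w = Sum.inl t) → ∃ t, y w = Sum.inl t := by
    intro w hw ⟨t, ht⟩
    rcases hy : y w with u | ⟨β, n⟩
    · exact ⟨u, rfl⟩
    · obtain ⟨n', hn'⟩ := (hmark w hw β).2 ⟨n, hy⟩
      rw [ht] at hn'
      exact nomatch hn'
  have hyr : ∀ w ∈ A, (¬ ∃ t, x w = Sum.inl t) → ∀ t, y w ≠ Sum.inl t := by
    intro w hw hx t hy
    rcases hxw : x w with u | ⟨β, n⟩
    · exact hx ⟨u, hxw⟩
    · obtain ⟨n', hn'⟩ := (hmark w hw β).1 ⟨n, hxw⟩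
      rw [hy] at hn'
      exact nomatch hn'
  let WT : Type := {w : W // ∃ t, x w = Sum.inl t}
  let tx : WT → T := fun w => Classical.choose w.2
  have htx : ∀ w : WT, x w.1 = Sum.inl (tx w) := fun w => Classical.choose_spec w.2
  let yT : WT → T := fun w => if h : w.1 ∈ A then Classical.choose (hyl w.1 h w.2) else tx w
  have hyT : ∀ w : WT, w.1 ∈ A → y w.1 = Sum.inl (yT w) := by
    intro w hw
    have e : yT w = Classical.choose (hyl w.1 hw w.2) := dif_pos hw
    rw [e]
    exact Classical.choose_spec (hyl w.1 hw w.2)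
  let AT : Set WT := {w | w.1 ∈ A}
  have hTpB : TpOn 𝔹 {a : WT ⊕ Fin c | ∀ w, a = Sum.inl w → w ∈ AT}
      (Sum.elim (fun w => (tx w : V)) cs) (Sum.elim (fun w => (yT w : V)) cs) := by
    refine ⟨?_, ?_⟩
    · intro a ha a' ha'
      rcases a with w | j <;> rcases a' with w' | j'
      · have hw : w.1 ∈ A := ha w rfl
        have hw' : w'.1 ∈ A := ha' w' rfl
        have h := h1 w.1 hw w'.1 hw'
        rw [htx, htx, hyT w hw, hyT w' hw'] at h
        constructor
        · intro e
          have e1 : tx w = tx w' := Subtype.ext e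
          exact congrArg Subtype.val (Sum.inl.inj (h.1 (congrArg Sum.inl e1)))
        · intro e
          have e1 : yT w = yT w' := Subtype.ext e
          exact congrArg Subtype.val (Sum.inl.inj (h.2 (congrArg Sum.inl e1)))
      · exact iff_of_false (fun e => hT.1 j' (by rw [← show (tx w : V) = cs j' from e]; exact (tx w).2))
          (fun e => hT.1 j' (by rw [← show (yT w : V) = cs j' from e]; exact (yT w).2))
      · exact iff_of_false (fun e => hT.1 j (by rw [show cs j = (tx w' : V) from e]; exact (tx w').2))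
          (fun e => hT.1 j (by rw [show cs j = (yT w' : V) from e]; exact (yT w').2))
      · exact Iff.rfl
    · intro l z hz
      by_cases hex : ∃ i w, z i = Sum.inl w
      · obtain ⟨i₀, w₀, hi₀⟩ := hex
        have m1 := mix_iff (𝔹 := 𝔹) (cs := cs) (b := b) tx l z i₀ w₀ hi₀
        have m2 := mix_iff (𝔹 := 𝔹) (cs := cs) (b := b) yT l z i₀ w₀ hi₀
        have hpad : ∀ i, (pad z w₀ i).1 ∈ A := by
          intro i
          rcases hzi : z i with w | j
          · rw [pad_inl hzi]; exact hz i w hzi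
          · rw [pad_inr hzi]; exact hz i₀ w₀ hi₀
        have h := h2 (Sum.inl ⟨l, fil z⟩) (fun i => (pad z w₀ i).1) hpad
        have e1 : (fun i => x (pad z w₀ i).1) = fun i => (Sum.inl (tx (pad z w₀ i)) : ExD T b) :=
          funext fun i => htx _
        have e2 : (fun i => y (pad z w₀ i).1) = fun i => (Sum.inl (yT (pad z w₀ i)) : ExD T b) :=
          funext fun i => hyT _ (hpad i)
        have h' : ExR 𝔹 cs T b (Sum.inl ⟨l, fil z⟩) (fun i => Sum.inl (tx (pad z w₀ i))) ↔
            ExR 𝔹 cs T b (Sum.inl ⟨l, fil z⟩) (fun i => Sum.inl (yT (pad z w₀ i))) := by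
          rw [← e1, ← e2]; exact h
        exact m1.trans (h'.trans m2.symm)
      · have e : (fun i => Sum.elim (fun w => (tx w : V)) cs (z i)) =
            fun i => Sum.elim (fun w => (yT w : V)) cs (z i) := by
          funext i
          rcases hzi : z i with w | j
          · exact absurd ⟨i, w, hzi⟩ hex
          · rfl
        rw [e]
  let FT : Finset V := (F.preimage Sum.inl Sum.inl_injective.injOn).image (fun t : T => (t : V))
  have hFT : ∀ t : T, Sum.inl t ∈ F → (t : V) ∈ FT := by
    intro t ht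
    exact Finset.mem_image.mpr ⟨t, Finset.mem_preimage.mpr ht, rfl⟩
  have hWTfin : Finite WT := Subtype.finite
  obtain ⟨X', hX', hX'A, hX'F⟩ := hAm WT AT _ _ FT hTpB
  obtain ⟨q1, q2⟩ := tp_iff.1 hX'
  have hX'T : ∀ w, X' w ∈ T := by
    intro w
    refine hT.2 (tx w : V) (X' w) ?_ (tx w).2
    rw [tp_iff]
    refine ⟨fun a a' => ?_, fun l z => ?_⟩
    · have h := q1 (Sum.map (fun _ : Unit => w) id a) (Sum.map (fun _ : Unit => w) id a')
      rcases a with a | a <;> rcases a' with a' | a'
      · exact h.symm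
      · exact h.symm
      · exact h.symm
      · exact h.symm
    · have h := q2 l (fun i => Sum.map (fun _ : Unit => w) id (z i))
      have e1 : (fun i => Sum.elim X' cs (Sum.map (fun _ : Unit => w) id (z i))) =
          fun i => Sum.elim (fun _ : Unit => X' w) cs (z i) := by
        funext i
        rcases z i with u | j <;> rfl
      have e2 : (fun i => Sum.elim (fun w => (tx w : V)) cs (Sum.map (fun _ : Unit => w) id (z i))) =
          fun i => Sum.elim (fun _ : Unit => (tx w : V)) cs (z i) := by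
        funext i
        rcases z i with u | j <;> rfl
      rw [e1, e2] at h
      exact h.symm
  let XT : WT → T := fun w => ⟨X' w, hX'T w⟩
  let K : ℕ := F.sup EXA_sec + (Finset.univ.sup fun w => EXA_sec (y w)) + 1
  have hKF : ∀ u ∈ F, EXA_sec u < K := by
    intro u hu
    have := Finset.le_sup (f := EXA_sec) hu
    show _ < F.sup EXA_sec + (Finset.univ.sup fun w => EXA_sec (y w)) + 1
    omega
  have hKy : ∀ w, EXA_sec (y w) < K := by
    intro w
    have := Finset.le_sup (f := fun w => EXA_sec (y w)) (Finset.mem_univ w)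
    show _ < F.sup EXA_sec + (Finset.univ.sup fun w => EXA_sec (y w)) + 1
    omega
  let x' : W → ExD T b := fun w =>
    if hw : ∃ t, x w = Sum.inl t then Sum.inl (XT ⟨w, hw⟩)
    else if h : ∃ a ∈ A, x w = x a then y (Classical.choose h) else EXA_sh K (x w)
  have x'T : ∀ w : WT, x' w.1 = Sum.inl (XT w) := fun w => dif_pos w.2
  have x'B : ∀ w, (¬ ∃ t, x w = Sum.inl t) → (∃ a ∈ A, x w = x a) →
      ∃ a ∈ A, x w = x a ∧ x' w = y a := by
    intro w hw h
    refine ⟨Classical.choose h, (Classical.choose_spec h).1, (Classical.choose_spec h).2, ?_⟩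
    exact (dif_neg hw).trans (dif_pos h)
  have x'N : ∀ w, (¬ ∃ t, x w = Sum.inl t) → (¬ ∃ a ∈ A, x w = x a) → x' w = EXA_sh K (x w) :=
    fun w hw h => (dif_neg hw).trans (dif_neg h)
  -- values on `A`
  have hA : ∀ a ∈ A, x' a = y a := by
    intro a ha
    by_cases hw : ∃ t, x a = Sum.inl t
    · rw [x'T ⟨a, hw⟩, hyT ⟨a, hw⟩ ha]
      exact congrArg Sum.inl (Subtype.ext (hX'A ⟨a, hw⟩ ha))
    · obtain ⟨a', ha', h3, h4⟩ := x'B a hw ⟨a, ha, rfl⟩
      rw [h4]
      exact ((h1 a ha a' ha').1 h3).symm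
  -- the form of the blind values
  have hblind : ∀ w, (¬ ∃ t, x w = Sum.inl t) → ∀ t, x' w ≠ Sum.inl t := by
    intro w hw t ht
    by_cases h : ∃ a ∈ A, x w = x a
    · obtain ⟨a, ha, h3, h4⟩ := x'B w hw h
      rw [h4] at ht
      exact hyr a ha (by rw [← h3]; exact hw) t ht
    · rw [x'N w hw h] at ht
      rcases hxw : x w with u | u
      · exact hw ⟨u, hxw⟩
      · rw [hxw] at ht; exact nomatch ht
  have hnew : ∀ w, (¬ ∃ t, x w = Sum.inl t) → (¬ ∃ a ∈ A, x w = x a) → K ≤ EXA_sec (x' w) := by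
    intro w hw h
    rw [x'N w hw h]
    rcases hxw : x w with u | u
    · exact absurd ⟨u, hxw⟩ hw
    · show K ≤ u.2 + K
      omega
  have hold : ∀ w, (¬ ∃ t, x w = Sum.inl t) → (∃ a ∈ A, x w = x a) → EXA_sec (x' w) < K := by
    intro w hw h
    obtain ⟨a, ha, h3, h4⟩ := x'B w hw h
    rw [h4]
    exact hKy a
  -- equalities
  have heq : ∀ w w', x' w = x' w' ↔ x w = x w' := by
    intro w w'
    by_cases hw : ∃ t, x w = Sum.inl t <;> by_cases hw' : ∃ t, x w' = Sum.inl t
    · have q := q1 (Sum.inl ⟨w, hw⟩) (Sum.inl ⟨w', hw'⟩)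
      rw [x'T ⟨w, hw⟩, x'T ⟨w', hw'⟩, htx ⟨w, hw⟩, htx ⟨w', hw'⟩]
      constructor
      · intro e
        exact congrArg Sum.inl (Subtype.ext (q.1 (congrArg Subtype.val (Sum.inl.inj e))))
      · intro e
        exact congrArg Sum.inl (Subtype.ext (q.2 (congrArg Subtype.val (Sum.inl.inj e))))
    · refine iff_of_false (fun e => ?_) (fun e => ?_)
      · rw [x'T ⟨w, hw⟩] at e
        exact hblind w' hw' _ e.symm
      · obtain ⟨t, ht⟩ := hw
        exact hw' ⟨t, by rw [← e]; exact ht⟩
    · refine iff_of_false (fun e => ?_) (fun e => ?_)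
      · rw [x'T ⟨w', hw'⟩] at e
        exact hblind w hw _ e
      · obtain ⟨t, ht⟩ := hw'
        exact hw ⟨t, by rw [e]; exact ht⟩
    · by_cases h : ∃ a ∈ A, x w = x a <;> by_cases h' : ∃ a ∈ A, x w' = x a
      · obtain ⟨a, ha, h3, h4⟩ := x'B w hw h
        obtain ⟨a', ha', h3', h4'⟩ := x'B w' hw' h'
        rw [h4, h4', h3, h3']
        exact (h1 a ha a' ha').symm
      · refine iff_of_false (fun e => ?_) (fun e => ?_)
        · have g1 := hold w hw h
          have g2 := hnew w' hw' h'
          rw [e] at g1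
          omega
        · obtain ⟨a, ha, h3⟩ := h
          exact h' ⟨a, ha, by rw [← e]; exact h3⟩
      · refine iff_of_false (fun e => ?_) (fun e => ?_)
        · have g1 := hold w' hw' h'
          have g2 := hnew w hw h
          rw [← e] at g1
          omega
        · obtain ⟨a, ha, h3⟩ := h'
          exact h ⟨a, ha, by rw [e]; exact h3⟩
      · rw [x'N w hw h, x'N w' hw' h']
        exact (EXA_sh_inj K).eq_iff
  refine ⟨x', ?_, hA, fun w hw => ?_⟩
  · rw [ExB, tp_strOn]
    refine ⟨heq, fun s z => ?_⟩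
    rcases s with ⟨l, f⟩ | β
    · by_cases hall : ∀ i, ∃ t, x (z i) = Sum.inl t
      · have e1 : (fun i => x (z i)) = fun i => (Sum.inl (tx ⟨z i, hall i⟩) : ExD T b) :=
          funext fun i => htx ⟨z i, hall i⟩
        have e2 : (fun i => x' (z i)) = fun i => (Sum.inl (XT ⟨z i, hall i⟩) : ExD T b) :=
          funext fun i => x'T ⟨z i, hall i⟩
        rw [e1, e2, exR_inl, exR_inl]
        have hq : ∀ i i', XT ⟨z i, hall i⟩ = XT ⟨z i', hall i'⟩ ↔
            tx ⟨z i, hall i⟩ = tx ⟨z i', hall i'⟩ := by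
          intro i i'
          have q := q1 (Sum.inl ⟨z i, hall i⟩) (Sum.inl ⟨z i', hall i'⟩)
          constructor
          · intro e
            exact Subtype.ext (q.1 (congrArg Subtype.val e))
          · intro e
            exact Subtype.ext (q.2 (congrArg Subtype.val e))
        refine and_congr ?_ ?_
        · constructor
          · rintro ⟨i₀, g1, g2⟩
            exact ⟨i₀, g1, fun i hi => (hq i i₀).1 (g2 i hi)⟩
          · rintro ⟨i₀, g1, g2⟩
            exact ⟨i₀, g1, fun i hi => (hq i i₀).2 (g2 i hi)⟩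
        · have q := q2 l (fun i => (f i).elim (Sum.inl ⟨z i, hall i⟩) Sum.inr)
          have e3 : (fun i => Sum.elim X' cs ((f i).elim (Sum.inl (⟨z i, hall i⟩ : WT)) Sum.inr)) =
              fun i => (f i).elim (XT ⟨z i, hall i⟩ : V) cs := by
            funext i
            rcases f i with _ | j <;> rfl
          have e4 : (fun i => Sum.elim (fun w => (tx w : V)) cs
              ((f i).elim (Sum.inl (⟨z i, hall i⟩ : WT)) Sum.inr)) =
              fun i => (f i).elim (tx ⟨z i, hall i⟩ : V) cs := by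
            funext i
            rcases f i with _ | j <;> rfl
          rw [e3, e4] at q
          exact q
      · push Not at hall
        obtain ⟨i, hi⟩ := hall
        have hi' : ¬ ∃ t, x (z i) = Sum.inl t := fun ⟨t, ht⟩ => hi t ht
        refine iff_of_false (fun h => ?_) (fun h => ?_)
        · obtain ⟨u, hu⟩ := exR_inl_elem h
          exact hblind (z i) hi' (u i) (congrFun hu i)
        · obtain ⟨u, hu⟩ := exR_inl_elem h
          exact hi (u i) (congrFun hu i)
    · rw [exR_inr, exR_inr]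
      by_cases hw : ∃ t, x (z ()) = Sum.inl t
      · refine iff_of_false (fun ⟨n, hn⟩ => ?_) (fun ⟨n, hn⟩ => ?_)
        · rw [x'T ⟨z (), hw⟩] at hn; exact nomatch hn
        · obtain ⟨t, ht⟩ := hw
          rw [ht] at hn; exact nomatch hn
      · by_cases h : ∃ a ∈ A, x (z ()) = x a
        · obtain ⟨a, ha, h3, h4⟩ := x'B _ hw h
          rw [h4, h3]
          exact (hmark a ha β).symm
        · rw [x'N _ hw h]
          rcases hxw : x (z ()) with u | u
          · exact absurd ⟨u, hxw⟩ hw
          · constructor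
            · rintro ⟨n, hn⟩
              have h5 : (u.1, u.2 + K) = (β, n) := Sum.inr.inj hn
              have h6 : u.1 = β := congrArg Prod.fst h5
              exact ⟨u.2, congrArg Sum.inr (Prod.ext h6 rfl)⟩
            · rintro ⟨n, hn⟩
              have h5 : u = (β, n) := Sum.inr.inj hn
              have h6 : u.1 = β := congrArg Prod.fst h5
              have h7 : (u.1, u.2 + K) = (β, u.2 + K) := Prod.ext h6 rfl
              exact ⟨u.2 + K, congrArg Sum.inr h7⟩
  · by_cases hwT : ∃ t, x w = Sum.inl t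
    · rw [x'T ⟨w, hwT⟩] at hw
      rcases hX'F ⟨w, hwT⟩ (hFT _ hw) with ⟨a, ha, hwa⟩ | ⟨j, hj⟩
      · refine ⟨a.1, ha, ?_⟩
        rw [x'T ⟨w, hwT⟩, x'T a]
        exact congrArg Sum.inl (Subtype.ext hwa)
      · exact absurd (by rw [← hj]; exact hX'T ⟨w, hwT⟩) (hT.1 j)
    · by_cases h : ∃ a ∈ A, x w = x a
      · obtain ⟨a, ha, h3, h4⟩ := x'B w hwT h
        exact ⟨a, ha, by rw [h4, hA a ha]⟩
      · have g1 := hnew w hwT h
        have g2 := hKF _ hw
        omega

end Pool.Agent.H86.LH
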