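import Pool.Agent.H57.LH.Targets2
set_option autoImplicit false
namespace Pool.Agent.H86.LH
open Pool.Agent.H68.BP Pool.Agent.H58.SF Pool.Agent.H53.GC Pool.Agent.H53.NR
open Pool.Agent.H53.GR (Dm Ps)
open Pool.Agent.H57.AR (tp ty tpo pullO Ty OT HomEq El ElD FamR Od GmR INJ lft)
open Pool.Agent.H57.SO (Pal Col vt Bh Sbn fib sigF)
open Pool.Agent.H57.EQ (Cx T_CYF)
open Pool.Agent.H57.LCI (LocalCompletions Pre Realizes)
open Pool.Agent.H44.KR (HB Amg Tyi Rz Rlz Clp LInj Prm TpOn RmL LcN Pl lr blk Fv kv RkI Kd JJ Yc IsTh Can Plf Pls)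
open Pool.Agent.H57.LH Function

/-- the type of a composition -/
theorem NAB_comp {V W X : Type} {ρ : Sig} {𝔹 : Str ρ V} {f g : W → V} (s : X → W)
    (h : tp 𝔹 f = tp 𝔹 g) : tp 𝔹 (fun a => f (s a)) = tp 𝔹 (fun a => g (s a)) := by
  have h1 : ∀ a b, (f a = f b) = (g a = g b) := fun a b => congrFun (congrFun (congrArg Prod.fst h) a) b
  have h2 : ∀ (l : Fin ρ.m) (z : Fin (ρ.ar l) → W), 𝔹 l (fun i => f (z i)) = 𝔹 l (fun i => g (z i)) :=
    fun l z => congrFun (congrFun (congrArg Prod.snd h) l) z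
  exact Prod.ext (funext fun a => funext fun b => h1 _ _) (funext fun l => funext fun z => h2 l _)

theorem pf_NAB : T_NAB := by
  classical
  intro V ρ 𝔹 _ hH hN F
  set Fix : Set V := {v | ∀ y, ty 𝔹 y = ty 𝔹 v → y = v} with hFix
  have hfin : Fix.Finite := by
    have : Finite Fix := by
      refine Finite.of_injective (fun v : Fix => ty 𝔹 (v : V)) ?_
      intro u v huv
      exact Subtype.ext (v.2 _ huv)
    exact Set.toFinite _
  set E : Finset V := F ∪ hfin.toFinset with hE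
  set cs : Fin E.card → V := fun j => (E.equivFin.symm j : V) with hcs
  have hinj : Injective cs := by
    intro i j h
    exact E.equivFin.symm.injective (Subtype.ext h)
  have hmem : ∀ x ∈ E, ∃ j, cs j = x := by
    intro x hx
    exact ⟨E.equivFin ⟨x, hx⟩, by rw [hcs]; simp⟩
  refine ⟨E.card, cs, hinj, fun x hx => hmem x (Finset.mem_union_left _ hx), ?_⟩
  intro W _ A x y F' hT
  set A' : Set (W ⊕ Fin E.card) := {a | ∀ w, a = Sum.inl w → w ∈ A} with hA'
  obtain ⟨x₁, hx₁, hx₁A⟩ := hH (W ⊕ Fin E.card) A' _ _ hT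
  have key : ∀ (n : ℕ) (x₁ : W ⊕ Fin E.card → V),
      (∀ a ∈ A', x₁ a = Sum.elim y cs a) →
      (F'.filter (fun v => (∃ w, v = x₁ (Sum.inl w)) ∧ ∀ a ∈ A', v ≠ x₁ a)).card ≤ n →
      ∃ x₂ : W ⊕ Fin E.card → V, tp 𝔹 x₂ = tp 𝔹 x₁ ∧ (∀ a ∈ A', x₂ a = Sum.elim y cs a) ∧
        ∀ w, x₂ (Sum.inl w) ∈ F' → ∃ a ∈ A', x₂ (Sum.inl w) = x₂ a := by
    intro n
    induction n with
    | zero =>
      intro x₁ h1 h2
      refine ⟨x₁, rfl, h1, fun w hw => ?_⟩
      by_contra hcon
      push Not at hcon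
      have h3 := Finset.card_eq_zero.mp (Nat.le_zero.mp h2)
      have h4 : x₁ (Sum.inl w) ∈
          F'.filter (fun v => (∃ w, v = x₁ (Sum.inl w)) ∧ ∀ a ∈ A', v ≠ x₁ a) :=
        Finset.mem_filter.mpr ⟨hw, ⟨w, rfl⟩, hcon⟩
      rw [h3] at h4
      exact absurd h4 (Finset.notMem_empty _)
    | succ n ih =>
      intro x₁ h1 h2
      rcases (F'.filter (fun v => (∃ w, v = x₁ (Sum.inl w)) ∧ ∀ a ∈ A', v ≠ x₁ a)).eq_empty_or_nonempty
        with h0 | ⟨v, hv⟩
      · exact ih x₁ h1 (by rw [h0]; simp)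
      · have hv' := Finset.mem_filter.mp hv
        obtain ⟨hvF, ⟨w, hw⟩, hvA⟩ := hv'
        have hcsv : ∀ j, v ≠ cs j := by
          intro j
          have hj : (Sum.inr j : W ⊕ Fin E.card) ∈ A' := by
            intro w hw; exact absurd hw (by simp)
          have := hvA _ hj
          rw [h1 _ hj] at this
          exact this
        have hnf : v ∉ Fix := by
          intro h
          obtain ⟨j, hj⟩ := hmem v (Finset.mem_union_right _ (hfin.mem_toFinset.mpr h))
          exact hcsv j hj.symm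
        have hex : ∃ y, y ≠ v ∧ ty 𝔹 y = ty 𝔹 v := by
          by_contra hcon
          push Not at hcon
          apply hnf
          intro y hy
          by_contra hne
          exact hcon y hne hy
        have hrf : (Set.range x₁).Finite := Set.finite_range x₁
        obtain ⟨y', hy'F, hy'⟩ := hN (Set.range x₁) (Subtype.val) ⟨v, ⟨Sum.inl w, hw.symm⟩⟩
          (F' ∪ hrf.toFinset) (fun u hu h => hu (Subtype.ext h)) hex
        rw [Finset.mem_union, not_or] at hy'F
        set g : Set.range x₁ → V := update Subtype.val ⟨v, ⟨Sum.inl w, hw.symm⟩⟩ y' with hg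
        have hg1 : ∀ u : Set.range x₁, (u : V) = v → g u = y' := by
          intro u hu
          have : u = ⟨v, ⟨Sum.inl w, hw.symm⟩⟩ := Subtype.ext hu
          rw [this, hg, update_self]
        have hg2 : ∀ u : Set.range x₁, (u : V) ≠ v → g u = u := by
          intro u hu
          rw [hg, update_of_ne]
          intro h
          exact hu (congrArg Subtype.val h)
        set x₂ : W ⊕ Fin E.card → V := fun a => g ⟨x₁ a, a, rfl⟩ with hx₂
        have ht2 : tp 𝔹 x₂ = tp 𝔹 x₁ :=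
          NAB_comp (f := g) (g := (Subtype.val : Set.range x₁ → V)) (fun a => ⟨x₁ a, a, rfl⟩) hy'
        have hA2 : ∀ a ∈ A', x₂ a = x₁ a := fun a ha => hg2 _ (fun h => hvA a ha h.symm)
        have hsub : F'.filter (fun u => (∃ w, u = x₂ (Sum.inl w)) ∧ ∀ a ∈ A', u ≠ x₂ a) ⊆
            (F'.filter (fun v => (∃ w, v = x₁ (Sum.inl w)) ∧ ∀ a ∈ A', v ≠ x₁ a)).erase v := by
          intro u hu
          rw [Finset.mem_filter] at hu
          obtain ⟨huF, ⟨w', hw'⟩, huA⟩ := hu
          have hne : x₁ (Sum.inl w') ≠ v := by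
            intro h
            have : u = y' := by rw [hw']; exact hg1 _ h
            exact hy'F.1 (this ▸ huF)
          have he : u = x₁ (Sum.inl w') := by rw [hw']; exact hg2 _ hne
          rw [Finset.mem_erase, Finset.mem_filter]
          refine ⟨fun h => hne (by rw [← he, h]), huF, ⟨w', he⟩, fun a ha => ?_⟩
          rw [← hA2 a ha]
          exact huA a ha
        have hcard : (F'.filter (fun u => (∃ w, u = x₂ (Sum.inl w)) ∧ ∀ a ∈ A', u ≠ x₂ a)).card ≤ n := by
          have h3 := Finset.card_le_card hsub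
          rw [Finset.card_erase_of_mem hv] at h3
          omega
        obtain ⟨x₃, h3, h4, h5⟩ := ih x₂ (fun a ha => by rw [hA2 a ha]; exact h1 a ha) hcard
        exact ⟨x₃, h3.trans ht2, h4, h5⟩
  obtain ⟨x₂, h1, h2, h3⟩ := key _ x₁ hx₁A le_rfl
  have hinr : ∀ j, x₂ (Sum.inr j) = cs j := by
    intro j
    have hj : (Sum.inr j : W ⊕ Fin E.card) ∈ A' := by
      intro w hw; exact absurd hw (by simp)
    exact h2 _ hj
  have he : Sum.elim (fun w => x₂ (Sum.inl w)) cs = x₂ := by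
    funext a
    rcases a with w | j
    · rfl
    · exact (hinr j).symm
  refine ⟨fun w => x₂ (Sum.inl w), ?_, fun a ha => ?_, fun w hw => ?_⟩
  · rw [he, h1, hx₁]
  · have haA : (Sum.inl a : W ⊕ Fin E.card) ∈ A' := by
      intro w hw
      rw [← Sum.inl.inj hw]; exact ha
    exact h2 _ haA
  · obtain ⟨a, ha, hwa⟩ := h3 w hw
    rcases a with a | j
    · exact Or.inl ⟨a, ha a rfl, hwa⟩
    · exact Or.inr ⟨j, by rw [← hinr j]; exact hwa⟩

end Pool.Agent.H86.LH
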